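import Pool.Agent.Y774.ST.Stm

/-!
Random walk on stairs, job ST-CONV: the converse, by a last exit decomposition.
-/

set_option autoImplicit false

namespace Pool.Agent.Y979.ST.Conv

open MeasureTheory ProbabilityTheory Filter Topology
open Pool.Agent.Results.MP_1da119_pr.StairsDivergence
open Pool.Agent.H528R3.Stairs (A B T T_eq T_mono T_const A_nonneg A_le B_nonneg B_le)
open Pool.Agent.Y774.ST

noncomputable section

/-- the indicator of the index `0` -/
def g0 (m : ℕ) : ℝ := if m = 0 then 1 else 0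

theorem g0_abs (m : ℕ) : |g0 m| ≤ 1 := by
  unfold g0; split_ifs <;> simp

theorem A_zero : A 0 = 1/2 := by
  unfold A; simp

theorem B_zero : B 0 = 0 := by
  unfold B; simp

theorem T_g0 {b : ℝ} (hb : 0 ≤ b) (hb2 : b ≤ 1/2) (m : ℕ) : (1/2) * g0 m ≤ T b g0 m := by
  rcases Nat.eq_zero_or_pos m with h | h
  · subst h
    unfold T
    rw [A_zero, B_zero]
    simp only [g0]
    norm_num
    linarith
  · have h1 : g0 m = 0 := by unfold g0; rw [if_neg (by omega)]
    have h2 : T b (fun _ => 0) m ≤ T b g0 m := T_mono hb hb2 (fun m => by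
      unfold g0; split_ifs <;> norm_num) m
    rw [T_const] at h2
    rw [h1, mul_zero]
    exact h2

theorem zero_meas (a : ℕ → ℝ) (t : ℕ) : MeasurableSet {ω | idx (walk a ω t) = 0} :=
  (idx_measurable a t) (measurableSet_singleton 0)

theorem pos0 (a : ℕ → ℝ) (ha : ∀ t, 1 ≤ t → 8 ≤ a t) (t : ℕ) :
    0 < noise.real {ω | idx (walk a ω t) = 0} := by
  have key : ∀ t, noise.real {ω | idx (walk a ω t) = 0} = ∫ ω, g0 (idx (walk a ω t)) ∂noise := by
    intro t
    rw [← integral_indicator_one (zero_meas a t)]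
    apply integral_congr_ae
    refine Eventually.of_forall fun ω => ?_
    simp only [g0]
    by_cases h : idx (walk a ω t) = 0
    · rw [if_pos h, Set.indicator_of_mem (by exact h)]; rfl
    · rw [if_neg h, Set.indicator_of_notMem (by exact h)]
  have hint : ∀ (t : ℕ) (G : ℕ → ℝ) (C : ℝ), (∀ m, |G m| ≤ C) →
      Integrable (fun ω => G (idx (walk a ω t))) noise := by
    intro t G C hG
    have h := integrable_past a t (fun _ => (1:ℝ)) measurable_const 1 (fun _ => by simp) G C hG
    simpa using h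
  induction t with
  | zero =>
    have : {ω : ℕ → ℝ × ℝ | idx (walk a ω 0) = 0} = Set.univ := by
      ext ω
      simp [walk, idx]
    rw [this]
    simp
  | succ t ih =>
    have hb := bias_mem (ha (t+1) (by omega))
    have h := integral_idx_past a t (ha (t+1) (by omega)) (fun _ => (1:ℝ)) measurable_const
      (fun _ _ _ => rfl) 1 (fun _ => by simp) g0 1 g0_abs
    simp only [one_mul] at h
    rw [key] at ih ⊢
    rw [h]
    have h2 : ∫ ω, (1/2) * g0 (idx (walk a ω t)) ∂noise ≤
        ∫ ω, T (4 / a (t+1)) g0 (idx (walk a ω t)) ∂noise := by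
      apply integral_mono
      · exact (hint t g0 1 g0_abs).const_mul _
      · apply hint t (T (4 / a (t+1)) g0) 1
        intro m
        have := T_nonneg_bound hb.1 hb.2 (G := g0) (C := 1) (fun m => by
          unfold g0; split_ifs <;> norm_num) (fun m => by unfold g0; split_ifs <;> norm_num) m
        rw [abs_of_nonneg this.1]; exact this.2
      · intro ω
        exact T_g0 hb.1 hb.2 _
    rw [integral_const_mul] at h2
    linarith

/-- both indices vanish -/
def S2 (a : ℕ → ℝ) (t₀ s : ℕ) : Set (ℕ → ℝ × ℝ) :=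
  {ω | idx (walk a ω t₀) = 0} ∩ {ω | idx (walk a ω s) = 0}

theorem S2_meas (a : ℕ → ℝ) (t₀ s : ℕ) : MeasurableSet (S2 a t₀ s) :=
  (zero_meas a t₀).inter (zero_meas a s)

theorem S2_past (a : ℕ → ℝ) {t₀ s T₀ : ℕ} (h0 : t₀ ≤ s) (hs : s ≤ T₀) (ω ω' : ℕ → ℝ × ℝ)
    (h : ∀ i ≤ T₀, ω i = ω' i) : ω ∈ S2 a t₀ s ↔ ω' ∈ S2 a t₀ s := by
  unfold S2
  simp only [Set.mem_inter_iff, Set.mem_ofPred_eq]
  rw [walk_congr a ω ω' t₀ fun i hi => h i (by omega), walk_congr a ω ω' s fun i hi => h i (by omega)]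

theorem ind_abs (U : Set (ℕ → ℝ × ℝ)) (ω : ℕ → ℝ × ℝ) : |U.indicator (fun _ => (1:ℝ)) ω| ≤ 1 := by
  by_cases h : ω ∈ U
  · rw [Set.indicator_of_mem h]; simp
  · rw [Set.indicator_of_notMem h]; simp

theorem ind_meas {U : Set (ℕ → ℝ × ℝ)} (hU : MeasurableSet U) :
    Measurable (U.indicator (fun _ => (1:ℝ))) := measurable_const.indicator hU

/-- the escape event after a visit to `0` at the time `s` -/
theorem escape_le (a : ℕ → ℝ) (ha : ∀ t, 1 ≤ t → 8 ≤ a t)
    (hmono : ∀ s t, 1 ≤ s → s ≤ t → a s ≤ a t) (H : StmH) {t₀ s : ℕ} (hs : t₀ ≤ s) :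
    noise {ω | ω ∈ S2 a t₀ s ∧ (∀ r, 0 < idx (walk a ω (s+1+r))) ∧
      Tendsto (fun t => (walk a ω t).2) atTop atTop} ≤
      ENNReal.ofReal (128 * (4 / a (s+1)) ^ 3 * noise.real {ω | idx (walk a ω t₀) = 0}) := by
  have hb := bias_mem (ha (s+1) (by omega))
  have hb0 : 0 < 4 / a (s+1) := by
    have := ha (s+1) (by omega)
    positivity
  obtain ⟨h, h0, hmon, hle1, hlim, hh1, hsup⟩ := H (4 / a (s+1)) hb0 hb.2
  obtain ⟨b, hbdef⟩ : ∃ b : ℝ, b = 4 / a (s+1) := ⟨_, rfl⟩
  rw [← hbdef] at hb hb0 hh1 hsup ⊢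
  have hnn : ∀ m, 0 ≤ h m := fun m => by rw [← h0]; exact hmon (Nat.zero_le m)
  have habs : ∀ m, |h m| ≤ 1 := fun m => by rw [abs_of_nonneg (hnn m)]; exact hle1 m
  obtain ⟨c, hc⟩ : ∃ c : ℝ, c = 128 * b ^ 3 * noise.real {ω | idx (walk a ω t₀) = 0} := ⟨_, rfl⟩
  rw [← hc]
  -- the killed walk
  have hK : ∀ n, ∫ ω, (Kp a (S2 a t₀ s) (s+1) 0 n).indicator (fun _ => (1:ℝ)) ω *
      h (idx (walk a ω (s+1+n))) ∂noise ≤ c := by
    intro n
    induction n with
    | zero =>
      have h1 : ∫ ω, (Kp a (S2 a t₀ s) (s+1) 0 0).indicator (fun _ => (1:ℝ)) ω *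
          h (idx (walk a ω (s+1+0))) ∂noise ≤
          ∫ ω, (S2 a t₀ s).indicator (fun _ => (1:ℝ)) ω * h (idx (walk a ω (s+1))) ∂noise := by
        apply integral_mono
        · exact integrable_past a (s+1+0) _ (ind_meas (Kp_measurable a (S2_meas a t₀ s) _ _ _)) 1
            (ind_abs _) h 1 habs
        · exact integrable_past a (s+1) _ (ind_meas (S2_meas a t₀ s)) 1 (ind_abs _) h 1 habs
        · intro ω
          simp only [Nat.add_zero]
          apply mul_le_mul_of_nonneg_right _ (hnn _)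
          by_cases h2 : ω ∈ Kp a (S2 a t₀ s) (s+1) 0 0
          · rw [ind1 h2, ind1 h2.1]
          · rw [ind0 h2]; exact Set.indicator_nonneg (fun _ _ => by norm_num) _
      have h2 := integral_idx_past a s (ha (s+1) (by omega))
        ((S2 a t₀ s).indicator (fun _ => (1:ℝ))) (ind_meas (S2_meas a t₀ s))
        (fun ω ω' h => by
          have h3 := S2_past a (t₀ := t₀) hs le_rfl ω ω' h
          by_cases h1 : ω ∈ S2 a t₀ s
          · rw [Set.indicator_of_mem h1, Set.indicator_of_mem (h3.1 h1)]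
          · rw [Set.indicator_of_notMem h1, Set.indicator_of_notMem (fun h2 => h1 (h3.2 h2))])
        1 (ind_abs _) h 1 habs
      rw [h2, ← hbdef] at h1
      refine h1.trans ?_
      have h4 : T b h 0 ≤ 128 * b ^ 3 := by
        unfold T
        rw [A_zero, B_zero, h0]
        have h5 := hnn 1
        have h6 : (1/2 + b) * (1/2) * h (0+1) ≤ (1/2) * h 1 := by
          have h7 : (1/2 + b) * (1/2) ≤ 1/2 := by linarith [hb.2]
          exact mul_le_mul_of_nonneg_right h7 h5
        linarith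
      have hT0 : 0 ≤ T b h 0 := (T_nonneg_bound hb.1 hb.2 hnn hle1 0).1
      have h5 : ∫ ω, (S2 a t₀ s).indicator (fun _ => (1:ℝ)) ω * T b h (idx (walk a ω s)) ∂noise =
          noise.real (S2 a t₀ s) * T b h 0 := by
        rw [← integral_indicator_one (S2_meas a t₀ s), ← integral_mul_const]
        apply integral_congr_ae
        refine Eventually.of_forall fun ω => ?_
        simp only
        by_cases h6 : ω ∈ S2 a t₀ s
        · have h7 : idx (walk a ω s) = 0 := h6.2
          rw [h7]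
          rfl
        · rw [Set.indicator_of_notMem h6, Set.indicator_of_notMem h6, zero_mul, zero_mul]
      rw [h5]
      have h6 : noise.real (S2 a t₀ s) ≤ noise.real {ω | idx (walk a ω t₀) = 0} :=
        measureReal_mono Set.inter_subset_left
      calc noise.real (S2 a t₀ s) * T b h 0
          ≤ noise.real {ω | idx (walk a ω t₀) = 0} * (128 * b ^ 3) :=
            mul_le_mul h6 h4 hT0 measureReal_nonneg
        _ = c := by rw [hc]; ring
    | succ n ih =>
      have h1 := killed_step a ha (S2_meas a t₀ s) (s+1) 0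
        (S2_past a (t₀ := t₀) hs (by omega : s ≤ s+1)) h 1 hnn hle1 n
      refine h1.trans (le_trans ?_ ih)
      have hb' := bias_mem (ha (s+1+n+1) (by omega))
      have hble : 4 / a (s+1+n+1) ≤ b := by
        rw [hbdef]
        exact div_le_div_of_nonneg_left (by norm_num) (by linarith [ha (s+1) (by omega)])
          (hmono _ _ (by omega) (by omega))
      apply integral_mono
      · apply integrable_past a (s+1+n) _ (ind_meas (Kp_measurable a (S2_meas a t₀ s) _ _ _)) 1
          (ind_abs _) (T (4 / a (s+1+n+1)) h) 1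
        intro m
        have := T_nonneg_bound hb'.1 hb'.2 hnn hle1 m
        rw [abs_of_nonneg this.1]; exact this.2
      · exact integrable_past a (s+1+n) _ (ind_meas (Kp_measurable a (S2_meas a t₀ s) _ _ _)) 1
          (ind_abs _) h 1 habs
      · intro ω
        simp only
        by_cases h2 : ω ∈ Kp a (S2 a t₀ s) (s+1) 0 n
        · rw [ind1 h2, one_mul, one_mul]
          exact hsup _ hb'.1 hble _ (h2.2 n le_rfl)
        · rw [ind0 h2, zero_mul, zero_mul]
  -- Fatou
  obtain ⟨f, hf⟩ : ∃ f : ℕ → (ℕ → ℝ × ℝ) → ENNReal, f = fun n ω => ENNReal.ofReal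
    ((Kp a (S2 a t₀ s) (s+1) 0 n).indicator (fun _ => (1:ℝ)) ω * h (idx (walk a ω (s+1+n)))) :=
    ⟨_, rfl⟩
  have hfm : ∀ n, Measurable (f n) := by
    intro n
    rw [hf]
    exact ((ind_meas (Kp_measurable a (S2_meas a t₀ s) _ _ _)).mul
      ((measurable_of_countable h).comp (idx_measurable a _))).ennreal_ofReal
  have hfi : ∀ n, ∫⁻ ω, f n ω ∂noise ≤ ENNReal.ofReal c := by
    intro n
    rw [hf]
    simp only
    rw [← ofReal_integral_eq_lintegral_ofReal]
    · exact ENNReal.ofReal_le_ofReal (hK n)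
    · exact integrable_past a (s+1+n) _ (ind_meas (Kp_measurable a (S2_meas a t₀ s) _ _ _)) 1
          (ind_abs _) h 1 habs
    · exact Eventually.of_forall fun ω => mul_nonneg
        (Set.indicator_nonneg (fun _ _ => by norm_num) _) (hnn _)
  have hFat : ∫⁻ ω, liminf (fun n => f n ω) atTop ∂noise ≤ ENNReal.ofReal c := by
    refine (lintegral_liminf_le hfm).trans ?_
    refine liminf_le_of_le (by isBoundedDefault) ?_
    intro x hx
    obtain ⟨n, hn⟩ := hx.exists
    exact hn.trans (hfi n)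
  have hM : noise {ω | 1 ≤ liminf (fun n => f n ω) atTop} ≤ ENNReal.ofReal c := by
    have h1 := mul_meas_ge_le_lintegral (μ := noise) (Measurable.liminf hfm) 1
    rw [one_mul] at h1
    exact h1.trans hFat
  refine le_trans ?_ hM
  apply measure_mono_ae
  filter_upwards [noise_nonneg] with ω hω hE
  obtain ⟨hE1, hE2, hE3⟩ := hE
  have hidx := idx_of_divergence a ω hω hE3
  have h1 : Tendsto (fun n => f n ω) atTop (𝓝 1) := by
    have h2 : ∀ n, f n ω = ENNReal.ofReal (h (idx (walk a ω (s+1+n)))) := by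
      intro n
      rw [hf]
      simp only
      rw [ind1 (U := Kp a (S2 a t₀ s) (s+1) 0 n) ⟨hE1, fun r _ => hE2 r⟩, one_mul]
    simp only [h2]
    rw [← ENNReal.ofReal_one]
    apply ENNReal.tendsto_ofReal
    apply hlim.comp
    have h3 : Tendsto (fun n => s+1+n) atTop atTop := by
      rw [tendsto_atTop]
      intro b
      filter_upwards [eventually_ge_atTop b] with n hn
      omega
    exact hidx.comp h3
  show 1 ≤ liminf (fun n => f n ω) atTop
  rw [h1.liminf_eq]

theorem main (H : Pool.Agent.Y774.ST.StmH) : Pool.Agent.Y774.ST.StmConv := by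
  intro a ha hmono hsum
  obtain ⟨F, hF⟩ : ∃ F : ℕ → ℝ, F = fun t => 128 * (4 / a t) ^ 3 := ⟨_, rfl⟩
  have hFs : Summable F := by
    have h1 := hsum.mul_left (128 * 64)
    rw [hF]
    refine h1.congr fun t => ?_
    rw [div_pow]
    ring
  have hlim := tendsto_sum_nat_add F
  obtain ⟨t₁, ht₁⟩ := ((hlim.eventually (gt_mem_nhds (show (0:ℝ) < 1/2 by norm_num))).and
    (eventually_ge_atTop 1)).exists
  obtain ⟨hsm, ht1⟩ := ht₁
  obtain ⟨t₀, rfl⟩ : ∃ t₀, t₁ = t₀ + 1 := ⟨t₁ - 1, by omega⟩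
  obtain ⟨p, hp⟩ : ∃ p : ℝ, p = noise.real {ω | idx (walk a ω t₀) = 0} := ⟨_, rfl⟩
  have hp0 : 0 < p := by rw [hp]; exact pos0 a ha t₀
  have hp1 : p ≤ 1 := by rw [hp]; exact measureReal_le_one
  obtain ⟨D, hD⟩ : ∃ D : Set (ℕ → ℝ × ℝ),
    D = {ω | Tendsto (fun t => (walk a ω t).2) atTop atTop} := ⟨_, rfl⟩
  obtain ⟨E, hE⟩ : ∃ E : ℕ → Set (ℕ → ℝ × ℝ), E = fun s => {ω | ω ∈ S2 a t₀ s ∧
    (∀ r, 0 < idx (walk a ω (s+1+r))) ∧ Tendsto (fun t => (walk a ω t).2) atTop atTop} := ⟨_, rfl⟩
  have hEle : ∀ k, noise (E (t₀+k)) ≤ ENNReal.ofReal (F (k + (t₀+1)) * p) := by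
    intro k
    rw [hE, hF, hp]
    have h1 := escape_le a ha hmono H (t₀ := t₀) (s := t₀+k) (by omega)
    rw [show k + (t₀+1) = t₀+k+1 by omega]
    exact h1
  have hcover : noise ({ω | idx (walk a ω t₀) = 0} ∩ D) ≤ noise (⋃ k, E (t₀+k)) := by
    apply measure_mono_ae
    filter_upwards [noise_nonneg] with ω hω hωD
    obtain ⟨h0, h1⟩ := hωD
    rw [hD] at h1
    have hidx := idx_of_divergence a ω hω h1
    obtain ⟨M, hM⟩ := eventually_atTop.1 (hidx.eventually (eventually_ge_atTop 1))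
    have h0' : idx (walk a ω t₀) = 0 := h0
    have ht0M : t₀ ≤ M := by
      by_contra h2
      have h3 := hM t₀ (by omega)
      omega
    classical
    obtain ⟨s, hs⟩ : ∃ s, s = Nat.findGreatest (fun s => idx (walk a ω s) = 0) M := ⟨_, rfl⟩
    have hs1 : t₀ ≤ s := by
      rw [hs]
      exact Nat.le_findGreatest ht0M h0'
    have hs2 : idx (walk a ω s) = 0 := by
      rw [hs]
      exact Nat.findGreatest_spec (P := fun s => idx (walk a ω s) = 0) ht0M h0'
    have hs3 : ∀ r, 0 < idx (walk a ω (s+1+r)) := by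
      intro r
      rcases Nat.lt_or_ge M (s+1+r) with h2 | h2
      · exact hM _ h2.le
      · rw [Nat.pos_iff_ne_zero]
        have h3 := Nat.findGreatest_is_greatest (P := fun s => idx (walk a ω s) = 0) (n := M)
          (k := s+1+r) (by rw [← hs]; omega) h2
        exact h3
    show ω ∈ ⋃ k, E (t₀+k)
    rw [Set.mem_iUnion]
    refine ⟨s - t₀, ?_⟩
    rw [hE, show t₀ + (s - t₀) = s by omega]
    exact ⟨⟨h0, hs2⟩, hs3, h1⟩
  have hFnn : ∀ k, 0 ≤ F (k + (t₀+1)) * p := by
    intro k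
    rw [hF]
    have := ha (k + (t₀+1)) (by omega)
    positivity
  have hZD : noise ({ω | idx (walk a ω t₀) = 0} ∩ D) ≤ ENNReal.ofReal (p/2) := by
    refine hcover.trans ((measure_iUnion_le _).trans ?_)
    refine (ENNReal.tsum_le_tsum hEle).trans ?_
    have hs2 : Summable fun k => F (k + (t₀+1)) * p := ((summable_nat_add_iff (t₀+1)).2 hFs).mul_right p
    rw [← ENNReal.ofReal_tsum_of_nonneg hFnn hs2]
    apply ENNReal.ofReal_le_ofReal
    rw [tsum_mul_right]
    nlinarith
  have hZc : noise {ω | idx (walk a ω t₀) = 0}ᶜ = ENNReal.ofReal (1 - p) := by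
    have h1 : noise.real {ω | idx (walk a ω t₀) = 0}ᶜ = 1 - p := by
      rw [hp]
      exact probReal_compl_eq_one_sub (zero_meas a t₀)
    rw [← h1, measureReal_def, ENNReal.ofReal_toReal (measure_ne_top _ _)]
  rw [← hD]
  calc noise D ≤ noise (({ω | idx (walk a ω t₀) = 0} ∩ D) ∪ {ω | idx (walk a ω t₀) = 0}ᶜ) := by
        apply measure_mono
        intro ω hω
        by_cases h : ω ∈ {ω | idx (walk a ω t₀) = 0}
        · exact Or.inl ⟨h, hω⟩
        · exact Or.inr h
    _ ≤ noise ({ω | idx (walk a ω t₀) = 0} ∩ D) + noise {ω | idx (walk a ω t₀) = 0}ᶜ :=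
        measure_union_le _ _
    _ ≤ ENNReal.ofReal (p/2) + ENNReal.ofReal (1 - p) := by
        rw [hZc]
        exact add_le_add hZD le_rfl
    _ = ENNReal.ofReal (1 - p/2) := by
        rw [← ENNReal.ofReal_add (by linarith) (by linarith)]
        congr 1
        ring
    _ < 1 := by
        rw [← ENNReal.ofReal_one]
        exact (ENNReal.ofReal_lt_ofReal_iff (by norm_num)).2 (by linarith)

end

end Pool.Agent.Y979.ST.Conv
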